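import Pool.Agent.K6.H47.GL.Stm

/-!
# Auxiliary lemmas for the pieces ST and BR
-/

set_option autoImplicit false

open TensorProduct

universe u

namespace Pool.Agent.K6.H59.GL

open Pool.Agent.K6.H47.GL

section B

variable {R : Type u} [CommRing R] {r : ℕ} (y : Fin r → R)

instance flat_Bk : Module.Flat R (Bk y) := by
  classical
  have : ∀ k, Module.Flat R (Localization.Away (y k)) := fun k =>
    IsLocalization.flat _ (Submonoid.powers (y k))
  exact Module.Flat.of_linearEquiv
    (DFinsupp.linearEquivFunOnFintype (R := R) (M := fun k : Fin r => Localization.Away (y k))).symm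

theorem eta_eq (X : Type u) [AddCommGroup X] [Module R X] (x : X) :
    eta y X x = (Algebra.linearMap R (Bk y)).rTensor X (1 ⊗ₜ x) := by
  simp [eta]

theorem pr_surj (X : Type u) [AddCommGroup X] [Module R X] : Function.Surjective (pr y X) :=
  LinearMap.rTensor_surjective _ (Submodule.mkQ_surjective _)

theorem exact_eta_pr (X : Type u) [AddCommGroup X] [Module R X] :
    Function.Exact (eta y X) (pr y X) := by
  have h0 : Function.Exact (Algebra.linearMap R (Bk y))
      (Submodule.mkQ (LinearMap.range (Algebra.linearMap R (Bk y)))) := by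
    rw [LinearMap.exact_iff, Submodule.ker_mkQ]
  have h := rTensor_exact X h0 (Submodule.mkQ_surjective _)
  intro z
  rw [show pr y X z = (Submodule.mkQ (LinearMap.range (Algebra.linearMap R (Bk y)))).rTensor X z
    from rfl, h z]
  constructor
  · rintro ⟨t, rfl⟩
    refine ⟨TensorProduct.lid R X t, ?_⟩
    rw [eta_eq]
    congr 1
    rw [← TensorProduct.lid_symm_apply, LinearEquiv.symm_apply_apply]
  · rintro ⟨t, rfl⟩
    exact ⟨1 ⊗ₜ t, (eta_eq y X t).symm⟩

/-- a section of `B ⊗ B → B ⊗ Q` -/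
noncomputable def sec : Bk y →ₗ[R] Qk y →ₗ[R] Bk y ⊗[R] Bk y where
  toFun b := (LinearMap.range (Algebra.linearMap R (Bk y))).liftQ
    ((TensorProduct.mk R (Bk y) (Bk y) b) -
      ((TensorProduct.mk R (Bk y) (Bk y)).flip 1) ∘ₗ (LinearMap.mulLeft R b)) (by
      rintro _ ⟨r, rfl⟩
      simp only [LinearMap.mem_ker, LinearMap.sub_apply, TensorProduct.mk_apply,
        LinearMap.comp_apply, LinearMap.flip_apply, LinearMap.mulLeft_apply,
        Algebra.linearMap_apply]
      rw [Algebra.algebraMap_eq_smul_one, mul_smul_comm, mul_one, TensorProduct.smul_tmul,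
        sub_self])
  map_add' b b' := by
    ext x
    simp [add_mul]
    abel
  map_smul' c b := by
    ext x
    simp [TensorProduct.smul_tmul', smul_sub]

theorem sec_mk (b b' : Bk y) : sec y b (Submodule.Quotient.mk b') = b ⊗ₜ b' - (b * b') ⊗ₜ 1 := by
  simp [sec]

/-- the section of `B ⊗ (B ⊗ X) → B ⊗ (Q ⊗ X)` -/
noncomputable def secX (X : Type u) [AddCommGroup X] [Module R X] :
    Bk y ⊗[R] (Qk y ⊗[R] X) →ₗ[R] Bk y ⊗[R] (Bk y ⊗[R] X) :=
  (TensorProduct.assoc R (Bk y) (Bk y) X).toLinearMap ∘ₗ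
    ((TensorProduct.lift (sec y)).rTensor X) ∘ₗ
    (TensorProduct.assoc R (Bk y) (Qk y) X).symm.toLinearMap

theorem secX_tmul (X : Type u) [AddCommGroup X] [Module R X] (b b' : Bk y) (x : X) :
    secX y X (b ⊗ₜ ((Submodule.Quotient.mk b' : Qk y) ⊗ₜ x)) =
      b ⊗ₜ (b' ⊗ₜ x) - (b * b') ⊗ₜ (1 ⊗ₜ x) := by
  simp [secX, sec_mk, TensorProduct.sub_tmul]

theorem pr_secX (X : Type u) [AddCommGroup X] [Module R X] :
    ((pr y X).lTensor (Bk y)) ∘ₗ secX y X = LinearMap.id := by
  apply TensorProduct.ext'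
  intro b t
  induction t using TensorProduct.induction_on with
  | zero => simp
  | add t t' h h' => rw [TensorProduct.tmul_add, map_add, h, h', map_add]
  | tmul q x =>
    obtain ⟨b', rfl⟩ := Submodule.Quotient.mk_surjective _ q
    rw [LinearMap.comp_apply, secX_tmul, map_sub, LinearMap.lTensor_tmul, LinearMap.lTensor_tmul]
    have h1 : pr y X ((1 : Bk y) ⊗ₜ x) = 0 := by
      have := (exact_eta_pr y X).apply_apply_eq_zero x
      exact this
    rw [h1, TensorProduct.tmul_zero, sub_zero]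
    rfl

theorem flat_BQ (X : Type u) [AddCommGroup X] [Module R X] (h : Module.Flat R (Bk y ⊗[R] X)) :
    Module.Flat R (Bk y ⊗[R] (Qk y ⊗[R] X)) :=
  Module.Flat.of_retract (secX y X) ((pr y X).lTensor (Bk y)) (pr_secX y X)

/-- `0 → X → B ⊗ X → Q ⊗ X → 0` if `eta` is injective -/
theorem ses_eta (X : Type u) [AddCommGroup X] [Module R X] (h : W y 0 X) :
    SES (eta y X) (pr y X) := ⟨h, exact_eta_pr y X, pr_surj y X⟩

/-- `0 → X/Γ → B ⊗ X → Q ⊗ X → 0` -/
theorem ses_quot (X : Type u) [AddCommGroup X] [Module R X] :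
    SES ((LinearMap.ker (eta y X)).liftQ (eta y X) le_rfl) (pr y X) := by
  refine ⟨?_, ?_, pr_surj y X⟩
  · rw [← LinearMap.ker_eq_bot]
    exact Submodule.ker_liftQ_eq_bot _ _ _ le_rfl
  · rw [LinearMap.exact_iff, Submodule.range_liftQ]
    exact (exact_eta_pr y X).linearMap_ker_eq

end B

/-- `0 → K → X → X/K → 0` -/
theorem ses_sub {R : Type u} [CommRing R] {X : Type u} [AddCommGroup X] [Module R X]
    (K : Submodule R X) : SES K.subtype K.mkQ :=
  ⟨K.injective_subtype, by rw [LinearMap.exact_iff, Submodule.ker_mkQ, Submodule.range_subtype],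
    K.mkQ_surjective⟩

section WL

variable {R : Type u} [CommRing R] {w : Ideal R} {X : Type u} [AddCommGroup X] [Module R X]

theorem wloc_tensor (h : WLoc w X) (A : Type u) [AddCommGroup A] [Module R A] :
    WLoc w (A ⊗[R] X) := by
  intro s hs
  let e : X ≃ₗ[R] X := LinearEquiv.ofBijective (LinearMap.lsmul R X s) (h s hs)
  have h1 : ∀ t : A ⊗[R] X, e.lTensor A t = s • t := by
    intro t
    induction t using TensorProduct.induction_on with
    | zero => simp
    | add t t' h h' => rw [map_add, h, h', smul_add]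
    | tmul a x =>
      show a ⊗ₜ[R] (s • x) = s • (a ⊗ₜ[R] x)
      rw [TensorProduct.tmul_smul]
  have := (e.lTensor A).bijective
  rwa [show (fun t : A ⊗[R] X => s • t) = e.lTensor A from funext fun t => (h1 t).symm]

theorem wloc_sub (h : WLoc w X) (K : Submodule R X) (hK : ∀ s ∉ w, ∀ x, s • x ∈ K → x ∈ K) :
    WLoc w K := by
  intro s hs
  refine ⟨fun a b hab => Subtype.ext ((h s hs).1 (congrArg Subtype.val hab)), fun k => ?_⟩
  obtain ⟨x, hx⟩ := (h s hs).2 k
  exact ⟨⟨x, hK s hs x (by rw [show s • x = k from hx]; exact k.2)⟩, Subtype.ext hx⟩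

theorem wloc_quot (h : WLoc w X) (K : Submodule R X) (hK : ∀ s ∉ w, ∀ x, s • x ∈ K → x ∈ K) :
    WLoc w (X ⧸ K) := by
  intro s hs
  constructor
  · intro a b hab
    obtain ⟨a, rfl⟩ := K.mkQ_surjective a
    obtain ⟨b, rfl⟩ := K.mkQ_surjective b
    have h1 : s • K.mkQ a = s • K.mkQ b := hab
    rw [← map_smul, ← map_smul, ← sub_eq_zero, ← map_sub, ← smul_sub, ← LinearMap.mem_ker,
      Submodule.ker_mkQ] at h1
    rw [← sub_eq_zero, ← map_sub, ← LinearMap.mem_ker, Submodule.ker_mkQ]
    exact hK s hs _ h1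
  · intro b
    obtain ⟨b, rfl⟩ := K.mkQ_surjective b
    obtain ⟨x, hx⟩ := (h s hs).2 b
    refine ⟨K.mkQ x, ?_⟩
    show s • K.mkQ x = K.mkQ b
    rw [← map_smul, show s • x = b from hx]

theorem sat_ker (Y : Type u) [AddCommGroup Y] [Module R Y] (h : WLoc w Y) (f : X →ₗ[R] Y) :
    ∀ s ∉ w, ∀ x, s • x ∈ LinearMap.ker f → x ∈ LinearMap.ker f := by
  intro s hs x hx
  rw [LinearMap.mem_ker, map_smul] at hx
  exact (h s hs).1 (by show s • f x = s • (0 : Y); rw [hx, smul_zero])

theorem wloc_Lw (w : Ideal R) [w.IsPrime] (X : Type u) [AddCommGroup X] [Module R X] :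
    WLoc w (Lw w X) := by
  intro s hs
  have := IsLocalizedModule.map_units (S := w.primeCompl)
    (LocalizedModule.mkLinearMap w.primeCompl X) ⟨s, hs⟩
  rw [Module.End.isUnit_iff] at this
  exact this

end WL

end Pool.Agent.K6.H59.GL
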